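import Pool.Agent.H37.CNX.Stmts

/-!
# Denominators of conductors: pull-back of covers, and the extraspecial 2-groups: statements of the rows
of the board `cnt`

Row `XXX` is a theorem `xxx_thm (h1 : S_AAA) ... : S_XXX` in `Pool/Agent/H<k>/CNT/XXX.lean`, importing this
file, namespace `Pool.CND`.

Pull-back: `L' = L(s)`, `s ^ m = t`, with `m` prime to `p |G|`: conductors are multiplied by `m`.
-/

set_option autoImplicit false

namespace Pool.CND

open Finset

/-- the data of the pull-back -/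
structure PB {k L L' : Type} [Field k] [Field L] [Field L'] [Algebra k L] [Algebra k L'] (m : ℕ)
    (t : L) (P : Place k L) (j : L →ₐ[k] L') (s : L') (P' : Place k L') : Prop where
  pow : s ^ m = j t
  ord : ∀ z : L, z ≠ 0 → P'.ord (j z) = m * P.ord z
  ord_s : P'.ord s = P.ord t
  span : ∀ z : L', ∃ c : Fin m → L, z = ∑ i, j (c i) * s ^ (i : ℕ)
  indep : ∀ c : Fin m → L, ∑ i, j (c i) * s ^ (i : ℕ) = 0 → ∀ i, c i = 0

/-- PU1: field and place.  `X ^ m - t` is irreducible over `L` (`ord t` prime to `m`), `L' = AdjoinRoot`;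
`v(∑ c_i s ^ i) = min (m ord c_i + i ord t)` (the values of the terms are distinct modulo `m`); `v(c s ^ n) = m ord c + n ord t`
for all `n`, so `v` is multiplicative (leading terms).  Residue field `k`; value `1` occurs. -/
def S_PU1 : Prop := ∀ (k L : Type) [Field k] [Field L] [Algebra k L] (P : Place k L) (t : L) (m : ℕ),
  1 ≤ m → t ≠ 0 → IsCoprime (P.ord t) (m : ℤ) →
  ∃ (L' : Type) (_ : Field L') (_ : Algebra k L') (j : L →ₐ[k] L') (s : L') (P' : Place k L'),
    PB m t P j s P'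

/-- PU2: the action -/
def S_PU2 : Prop := ∀ (k L L' G : Type) [Field k] [Field L] [Field L'] [Algebra k L] [Algebra k L']
  [Group G] (P : Place k L) (t : L) (m : ℕ) (j : L →ₐ[k] L') (s : L') (P' : Place k L')
  (ρ : G →* (L ≃ₐ[k] L)), 1 ≤ m → t ≠ 0 → PB m t P j s P' → (∀ g : G, ρ g t = t) →
  ∃ ρ' : G →* (L' ≃ₐ[k] L'), (∀ (g : G) (z : L), ρ' g (j z) = j (ρ g z)) ∧ ∀ g : G, ρ' g s = s

/-- RSP: restriction of a place to a subfield: the orders on `L` form a nonzero subgroup `e ℤ` (if all were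
`0`, every element of `L` would be a constant) -/
def S_RSP : Prop := ∀ (k L L' : Type) [Field k] [Field L] [Field L'] [Algebra k L] [Algebra k L']
  (j : L →ₐ[k] L') (P' : Place k L') (t : L), Transcendental k t →
  ∃ (e : ℕ) (P : Place k L), 1 ≤ e ∧ ∀ z : L, z ≠ 0 → (e : ℤ) * P.ord z = P'.ord (j z)

/-- PU3: it is a cover (`RSP` for places with `s` finite; fixed elements: `∑ j(c_i) s ^ i` with `c_i ∈ k(t)`) -/
def S_PU3 : Prop := ∀ (k L L' G : Type) [Field k] [Field L] [Field L'] [Algebra k L] [Algebra k L']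
  [Group G] [Finite G] (P : Place k L) (t : L) (m : ℕ) (j : L →ₐ[k] L') (s : L') (P' : Place k L')
  (ρ : G →* (L ≃ₐ[k] L)) (ρ' : G →* (L' ≃ₐ[k] L')), 1 ≤ m → IsCover ρ t → PB m t P j s P' →
  (∀ (g : G) (z : L), ρ' g (j z) = j (ρ g z)) → (∀ g : G, ρ' g s = s) → IsCover ρ' s

/-- PU4: the conductor is multiplied by `m`.  `g` fixes `P'` iff it fixes `P` (expand in powers of `s`, `VEC`);
`P'.ord (j π) = m` is prime to `p`, so by `LO2`, `LON` `P'.b = m P.b` for `g ∈ ram 1` (`EXP`: if `b ≥ 1` below then also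
above: `g u - u` for `u = j π` and `s`); `ram' i = ram ⌈i / m⌉` -/
def S_PU4 : Prop := ∀ (p : ℕ) (k L L' G : Type) [Field k] [Field L] [Field L'] [Algebra k L]
  [Algebra k L'] [Group G] [Finite G] (P : Place k L) (t : L) (m : ℕ) (j : L →ₐ[k] L') (s : L')
  (P' : Place k L') (ρ : G →* (L ≃ₐ[k] L)) (ρ' : G →* (L' ≃ₐ[k] L')) (c : ℚ), p.Prime →
  CharP k p → 1 ≤ m → ¬ p ∣ m → IsCover ρ t → IsCoprime (P.ord t) (m : ℤ) → PB m t P j s P' →
  (∀ (g : G) (z : L), ρ' g (j z) = j (ρ g z)) → (∀ g : G, ρ' g s = s) →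
  IsConductor P ρ c → IsConductor P' ρ' (m * c)

/-- PUL: from `PU1`, `PU2`, `PU3`, `PU4`; `ord t` divides the order of the inertia group (`RMX` for `N = ⊤`, orders
on `k(t)` are multiples of `ord t` by `SLX` for `1 / t`), so it is prime to `m` -/
def S_PUL : Prop := ∀ (p : ℕ) (k G : Type) [Field k] [Group G] [Finite G] (m : ℕ) (c : ℚ), p.Prime →
  CharP k p → 1 ≤ m → ¬ p ∣ m → Nat.Coprime m (Nat.card G) → c ∈ Cond k G →
  (m * c : ℚ) ∈ Cond k G

/-- PUN: the denominator of a conductor divides `N_G`: from `PUL` (`m = 1 + j p |G|`, `j ≥ 0`), `UPA` (`A = ⊥`): if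
`den c` does not divide `N` then `N m c` is not an integer for `m` prime to `den c`, which divides `|G|`; `c ≠ 0` -/
def S_PUN : Prop := ∀ (p : ℕ) (k G : Type) [Field k] [Group G] [Finite G] (c : ℚ), p.Prime →
  CharP k p → c ∈ Cond k G → c.den ∣ NG k G

/-! ## Subgroups of `EG k p h`, extraspecial 2-groups -/

/-- S2C: subgroups `H` of `EG k p h` containing `{w = 0}`.  `V` = the values of `w` on `H`, `|H| = p |V|`; the cover
of `CVR` for `m = 1`, `t = ∏_{v ∈ V} (x - v)`: `L = k(x, y)`, `[L : k(t)] = p |V|`; `CVF`, `CVB`: `b = 1` off the centre,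
`p ^ h + 1` on it; conductor `1 + p ^ h / |V|`.  (`CVC` for the places.) -/
def S_S2C : Prop := ∀ (p : ℕ) (k : Type) [Field k] [IsAlgClosed k] [Fact p.Prime] [CharP k p]
  (h : ℕ) (H : Subgroup (EG k p h)), 1 ≤ h → (∀ g : EG k p h, g.w = 0 → g ∈ H) →
  ((1 : ℚ) + p ^ h * p / Nat.card H) ∈ Cond k H

/-- extraspecial 2-groups of order `2 ^ (2 h + 1)` -/
structure X2 (h : ℕ) (G : Type) [Group G] : Prop where
  card : Nat.card G = 2 ^ (2 * h + 1)
  center : Nat.card (Subgroup.center G) = 2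
  pow : ∀ g : G, g ^ 2 ∈ Subgroup.center G
  comm : ∀ g g' : G, g * g' * g⁻¹ * g'⁻¹ ∈ Subgroup.center G

/-- plus type: an elementary abelian subgroup of order `2 ^ (h + 1)` -/
def Pls (h : ℕ) (G : Type) [Group G] : Prop :=
  ∃ A : Subgroup G, EA 2 A ∧ Nat.card A = 2 ^ (h + 1)

/-- E2I: classification of the extraspecial 2-groups (quadratic forms over `F_2`: a nondegenerate form of
dimension `≥ 3` has a singular vector and splits off a hyperbolic plane) -/
def S_E2I : Prop := ∀ (h : ℕ) (G G' : Type) [Group G] [Group G'], 1 ≤ h → X2 h G → X2 h G' →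
  (Pls h G ↔ Pls h G') → Nonempty (G ≃* G')

/-- E2M: `EG k 2 h` is not of plus type: else its conductors would lie in `2 ^ (1 - h) ℤ` (`UPA`, `d = h`), against
`LOW` (`m = 1`) -/
def S_E2M : Prop := ∀ (k : Type) [Field k] [IsAlgClosed k] [Fact (Nat.Prime 2)] [CharP k 2] (h : ℕ),
  1 ≤ h → X2 h (EG k 2 h) ∧ ¬ Pls h (EG k 2 h)

/-- E2S: a group of plus type inside `EG k 2 (h + 1)`: `A` from `EGA` (order `2 ^ (h + 1)`), a complement `U` of the
centre in `A`, and singular vectors dual to a basis of `U` (hyperbolic pairs) generate with the centre a subgroup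
of order `2 ^ (2 h + 1)` -/
def S_E2S : Prop := ∀ (k : Type) [Field k] [IsAlgClosed k] [Fact (Nat.Prime 2)] [CharP k 2] (h : ℕ),
  1 ≤ h → ∃ H : Subgroup (EG k 2 (h + 1)), (∀ g : EG k 2 (h + 1), g.w = 0 → g ∈ H) ∧ X2 h H ∧ Pls h H

/-- E2F: the extraspecial 2-groups: minus type: `E2M`, `E2I`, `CNG`, `NGE`; plus type: `PTA` (`d = h`, `m = 1`) and
`E2S`, `E2I`, `S2C` (conductor `1 + 2 ^ (h + 2) / 2 ^ (2 h + 1) = (2 ^ (h - 1) + 1) / 2 ^ (h - 1)` for `h ≥ 2`), `PUN`, `CNG` -/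
def S_E2F : Prop := ∀ (k G : Type) [Field k] [IsAlgClosed k] [CharP k 2] [Group G] [Finite G]
  (h : ℕ), 1 ≤ h → X2 h G → (Pls h G → NG k G = 2 ^ (h - 1)) ∧ (¬ Pls h G → NG k G = 2 ^ h)

end Pool.CND
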